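import Pool.Agent.H61.KW.TC

/-!
# Row A3A: transversal faces, first part of the proof that they are simplicial
-/

namespace Pool.Agent.H3.KW

open Pool.Agent.H59 Pool.Agent.H64.LB Pool.Agent.H61.KU Pool.Agent.H61.KV Pool.Agent.H61.KW

theorem pf_A3A (h : T_TFT) (h2 : T_A3P) (h3 : T_TTT) (h4 : T_SM2) (h5 : T_LDE) (h6 : T_XSP)
    (h7 : T_F5U) (h8 : T_SMD) (h9 : T_XOU) (_h10 : T_DSB) : T_A3A := by
  intro V _ _ _ m hK hS q q' t a a' hq hq' ht hP hP' hTa hTa' hns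
  have hC := hK.cc
  have hqC : q ∈ Cn m := hK.mem q hq
  have hqq : q ∈ Fc (Cn m) q := self hC hqC
  have haC : a ∈ Cn m := hP.ds.1
  have haC' : a' ∈ Cn m := hP'.ds.1
  have haq : a ∈ Fc (Cn m) q := (face hC hqC haC ht.1 hP.mem).1
  have e4 := hK.rk4 q hq
  have ea := hP.rk3
  have ea' := hP'.rk3
  have hn4 : ¬ Smp (Cn m) 4 q := fun h11 => hns ((h4 V (Cn m) q hC hqC).2.2.2 a t hP h11)
  -- step 1
  have s1 : ∀ u, Ex (Cn m) u → u ∈ Fc (Cn m) a → 5 ≤ rk (Cn m) (a' + u) := by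
    intro u hu hua
    have huq : u ∈ Fc (Cn m) q := tra hC hqC haq hua
    obtain ⟨k1, k2, k3, k4, k5, k6⟩ := h V m hK q a' u hq hTa' huq hu.2.1
    by_contra hlt
    have h11 : rk (Cn m) (a' + u) = 4 := by omega
    obtain ⟨b, hb, -⟩ := h2 V m hK hS q (a' + u) u hq (k4 h11) k5 hu huq
      (right_fc hC haC' hu.1)
    have h12 := (h3 V (Cn m) q a t b u hC hqC hP hb hn4).1
    exact hu.2.1 (hP.ds.2.2.1 u (mem_sp hua) (mem_sp h12))
  have hpair : ∀ u v, Ex (Cn m) u → Ex (Cn m) v → v ∉ Submodule.span ℝ {u} →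
      ∀ r ∈ Fc (Cn m) u, r ∈ Fc (Cn m) v → r = 0 := by
    intro u v hu hv huv r hr hr'
    refine ex_meet hC hv.1 hu ?_ hr hr'
    intro h11
    obtain ⟨c, hc, h12⟩ := ex_par hC hv hu h11
    apply huv
    rw [Submodule.mem_span_singleton]
    refine ⟨c⁻¹, ?_⟩
    rw [h12, smul_smul, inv_mul_cancel₀ hc.ne', one_smul]
  have s2 : ∀ u, Ex (Cn m) u → u ∈ Fc (Cn m) a → rk (Cn m) (a' + u) = 5 := by
    intro u hu hua
    obtain ⟨v, hv, hva, hvu⟩ := h6 V (Cn m) a (Submodule.span ℝ {u}) hC haC (by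
      rw [finrank_span_singleton hu.2.1]
      omega)
    obtain ⟨k1, k2, k3, k4, k5⟩ := h5 V m hK q a' u v q hq hTa' hqq
      (tra hC hqC haq hua) (tra hC hqC haq hva) (hpair u v hu hv hvu)
    have r1 := s1 u hu hua
    have r2 := s1 v hv hva
    have r3 := ex_rk hC hu
    have r4 := ex_rk hC hv
    omega
  have s3 : ∀ u, Ex (Cn m) u → u ∈ Fc (Cn m) a →
      ∃ β z y, β ∈ Fc (Cn m) a' ∧ Ex (Cn m) β ∧ Ex (Cn m) z ∧ Ex (Cn m) y ∧
        Dsum (Cn m) β (z + y) ∧ Dsum (Cn m) z y ∧ β + (z + y) ∈ Fc (Cn m) a' ∧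
        a' ∈ Fc (Cn m) (β + (z + y)) ∧ rk (Cn m) (β + u) = 3 := by
    intro u hu hua
    obtain ⟨β, z, y, k1, k2, k3, k4, k5, k6, k7, k8, k9, k10, k11, k12, k13, k14⟩ :=
      h7 V m hK q a' u hq hTa' hu (tra hC hqC haq hua) (s2 u hu hua)
    exact ⟨β, z, y, k1, ex_of_rk1 hC (mem_C k1) (by omega), k4, k5, k6, k7, k8, k9, k11⟩
  refine ⟨?_, ?_, ?_⟩
  · intro u hu hua
    obtain ⟨β, z, y, k1, k2, -, -, -, -, -, -, k9⟩ := s3 u hu hua
    exact ⟨s2 u hu hua, β, k1, k2, k9⟩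
  · obtain ⟨u, hu, hua, -⟩ := h6 V (Cn m) a ⊥ hC haC (by
      rw [finrank_bot]
      omega)
    obtain ⟨β, z, y, k1, k2, k3, k4, k5, k6, k7, k8, k9⟩ := s3 u hu hua
    have m1 : Smp (Cn m) 1 β := (h4 V (Cn m) β hC k2.1).1 k2
    have m2 : Smp (Cn m) 1 z := (h4 V (Cn m) z hC k3.1).1 k3
    have m3 : Smp (Cn m) 1 y := (h4 V (Cn m) y hC k4.1).1 k4
    have hzy : z + y ∈ Cn m := hC.add z k3.1 y k4.1
    have m4 : Smp (Cn m) 2 (z + y) := h8 V (Cn m) z y (z + y) 1 1 hC k6 m2 m3 hzy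
      (self hC hzy) (self hC hzy)
    exact h8 V (Cn m) β (z + y) a' 1 2 hC k5 m1 m4 haC' k8 k7
  · intro s hs
    by_contra hne
    have hsC : s ∈ Cn m := mem_C hs.1
    have r0 := bd_rk hC haC hs
    have r1 := rk_pos hC hsC hs.2.1
    have r2 : rk (Cn m) s = 2 := by
      by_contra h11
      exact hne (ex_of_rk1 hC hsC (by omega))
    have hsq : s ∈ Fc (Cn m) q := tra hC hqC haq hs.1
    obtain ⟨u1, hu1, hu1s, -⟩ := h6 V (Cn m) s ⊥ hC hsC (by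
      rw [finrank_bot]
      omega)
    obtain ⟨u2, hu2, hu2s, hu12⟩ := h6 V (Cn m) s (Submodule.span ℝ {u1}) hC hsC (by
      rw [finrank_span_singleton hu1.2.1]
      omega)
    obtain ⟨u3, hu3, hu3a, hu3s⟩ := h9 V (Cn m) (Fc (Cn m) s) a hC haC (zero_fc hC hsC)
      (fun x hx y hy => add_fc hC hsC hx hy) hs.2.2
    have c1 := (h5 V m hK q a' u1 u2 s hq hTa' hsq hu1s hu2s (hpair u1 u2 hu1 hu2 hu12)).2.2.2.2
    have c2 := h5 V m hK q a' s u3 q hq hTa' hqq hsq (tra hC hqC haq hu3a)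
      (fun r hr hr' => ex_meet hC hsC hu3 hu3s hr' hr)
    obtain ⟨c3, -, -, -, c4⟩ := c2
    have d1 := s2 u1 hu1 (tra hC haC hs.1 hu1s)
    have d2 := s2 u2 hu2 (tra hC haC hs.1 hu2s)
    have d3 := s2 u3 hu3 hu3a
    have d4 := ex_rk hC hu1
    have d5 := ex_rk hC hu2
    have d6 := ex_rk hC hu3
    omega

end Pool.Agent.H3.KW
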