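import Pool.Agent.H61.KW.TC

/-!
# Row A3P: transversal faces are pyramids with apex the common ray
-/

namespace Pool.Agent.H3.KW

open Pool.Agent.H59 Pool.Agent.H64.LB Pool.Agent.H61.KU Pool.Agent.H61.KV Pool.Agent.H61.KW

theorem pf_A3P (h : T_COF) (h2 : T_NR2) (h3 : T_EXI) (h4 : T_PYR) : T_A3P := by
  intro V _ _ _ m hK hS q q' t hq hq' hov ht htq htq'
  have hC := hK.cc
  have hqC : q ∈ Cn m := hK.mem q hq
  have e4 := hK.rk4 q hq
  have key : ∀ s ∈ Fc (Cn m) q, q ∈ Fc (Cn m) (s + t) → q ∉ Fc (Cn m) s →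
      Tf m q' s ∧ 3 ≤ rk (Cn m) s := by
    intro s hs h5 h6
    have h7 := (h V m hK hS q q' t s hq hq' hov htq htq' hs h5).1
    have h8 : s ∈ Mh m := hK.bd q s hq hs h6 (self hC (mem_C hs))
    have h9 : Tf m q' s := hK.ovf q' s hq' h8 h7
    exact ⟨h9, h2 V m hK hS q' s hq' h9⟩
  have hbt : Bd (Cn m) q t := bd_ex hC ht htq (by omega)
  obtain ⟨s, hbs, hs⟩ := h3 V (Cn m) q t hC hqC hbt
  obtain ⟨k1, k2⟩ := key s hbs.1 hs hbs.2.2
  have h5 := bd_rk hC hqC hbs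
  have hsC : s ∈ Cn m := mem_C hbs.1
  have hts : t ∉ Fc (Cn m) s := fun h6 =>
    hbs.2.2 (tra hC hsC (add_fc hC hsC (self hC hsC) h6) hs)
  refine ⟨s, h4 V (Cn m) q s t hC hqC e4 hbs.1 (by omega) ht htq hts ?_, k1⟩
  intro u hu h6
  have h7 := bd_rk hC hsC hu
  have huq : u ∈ Fc (Cn m) q := tra hC hqC hbs.1 hu.1
  have h8 : q ∉ Fc (Cn m) u := fun h9 => by
    have := rk_mono hC (mem_C hu.1) h9
    omega
  have h9 := (key u huq h6 h8).2
  omega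

end Pool.Agent.H3.KW
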