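import Pool.Agent.H61.KW.TB

/-!
# Row LDE: submodularity for an essential face and a transversal foot
-/

namespace Pool.Agent.H3.KW

open Pool.Agent.H59 Pool.Agent.H64.LB Pool.Agent.H61.KU Pool.Agent.H61.KV Pool.Agent.H61.KW

theorem pf_LDE (h1 : T_LDM) (h2 : T_LDI) : T_LDE := by
  intro V _ _ _ m h q g s s' τ hq hg hτ hs hs' hd
  have hC := h.cc
  have hqC : q ∈ Cn m := h.mem q hq
  have hgC : g ∈ Cn m := hg.mem
  have hτC : τ ∈ Cn m := mem_C hτ
  have hsC : s ∈ Cn m := mem_C hs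
  have hftd := h.ftd q hq
  have hsq : s ∈ Fc (Cn m) q := tra hC hqC hτ hs
  have hqq : q ∈ Fc (Cn m) q := self hC hqC
  have e4 := h.rk4 q hq
  have e9 : rk (Cn m) (g + q) = 9 := by
    rw [add_comm, ov_rk hC h.span hqC hgC hg.ov, h.fin]
  have e0 : rk (Cn m) (0 : V) = 0 := rk_zero hC
  have a1 := h1 V (Cn m) q g q 0 hC hftd hgC hg.foot hqq (zero_fc hC hqC)
  rw [add_zero] at a1
  have a2 := h1 V (Cn m) q g q τ hC hftd hgC hg.foot hqq hτ
  have a3 := h1 V (Cn m) q g s 0 hC hftd hgC hg.foot hsq (zero_fc hC hsC)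
  rw [add_zero] at a3
  have h0C : (0 : V) ∈ Cn m := mem_C (zero_fc hC hqC)
  have a4 := h2 V (Cn m) q g τ s s' 0 hC hftd hgC hg.foot hτ hs hs' h0C (by
    intro t
    constructor
    · intro ht
      rw [fc_of_zero hC ht]
      exact ⟨zero_fc hC hsC, zero_fc hC (mem_C hs')⟩
    · rintro ⟨ht1, ht2⟩
      rw [hd t ht1 ht2]
      exact zero_fc hC h0C)
  rw [add_zero] at a4
  refine ⟨e9, ?_, ?_, ?_, ?_⟩ <;> omega

end Pool.Agent.H3.KW
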