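import Pool.Agent.H61.KW.TA

/-!
# Row LDM: monotonicity of `rk (g + s) - rk s`
-/

namespace Pool.Agent.H3.KW

open Pool.Agent.H61.KV Pool.Agent.H61.KW

/-- The rank of `Sp C (g + t) ⊔ Sp C q` (also needed for the row LDI). -/
theorem finrank_sup_foot (h : T_SPG) {V : Type} [NormedAddCommGroup V] [NormedSpace ℝ V]
    [FiniteDimensional ℝ V] {C : Set V} {q g t : V} (hC : IsCC C) (hq : Ftd C q) (hg : g ∈ C)
    (hf : Foot C q g g) (ht : t ∈ Fc C q) :
    Module.finrank ℝ (Sp C (g + t) ⊔ Sp C q : Submodule ℝ V) + rk C t = rk C (g + t) + rk C q := by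
  have hqC : q ∈ C := hq.1
  have htC : t ∈ C := mem_C ht
  have hgt : g + t ∈ C := hC.add g hg t htC
  have h1 : Sp C (g + t) ⊓ Sp C q = Sp C t := by
    apply le_antisymm
    · rintro v ⟨hv1, hv2⟩
      exact h V C q (g + t) t hC hq hgt htC
        (fun x hx1 hx2 => foot_face hC hqC hg ht hf hx1 hx2) v hv2 hv1
    · exact le_inf (sp_mono hC hgt (right_fc hC hg htC)) (sp_mono hC hqC ht)
  have h2 := Submodule.finrank_sup_add_finrank_inf_eq (Sp C (g + t)) (Sp C q)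
  rw [h1] at h2
  exact h2

theorem pf_LDM (h : T_SPG) : T_LDM := by
  intro V _ _ _ C q g σ s hC hq hg hf hσ hs
  have hqC : q ∈ C := hq.1
  have hσC : σ ∈ C := mem_C hσ
  have hsC : s ∈ C := mem_C hs
  have hsq : s ∈ Fc C q := tra hC hqC hσ hs
  have hgσ : g + σ ∈ C := hC.add g hg σ hσC
  have h1 := finrank_sup_foot h hC hq hg hf hσ
  have h2 := finrank_sup_foot h hC hq hg hf hsq
  have h3 : g + s ∈ Fc C (g + σ) :=
    add_fc hC hgσ (left_fc hC hg hσC) (tra hC hgσ (right_fc hC hg hσC) hs)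
  have h4 : Sp C (g + s) ⊔ Sp C q ≤ Sp C (g + σ) ⊔ Sp C q :=
    sup_le_sup_right (sp_mono hC hgσ h3) _
  have h5 := Submodule.finrank_mono h4
  omega

end Pool.Agent.H3.KW
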