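import Pool.Agent.H61.KW.TA

/-!
# Row RKF: the rank formula for a footed face
-/

namespace Pool.Agent.H3.KW

open Pool.Agent.H61.KV Pool.Agent.H61.KW

theorem pf_RKF (h : T_SPG) : T_RKF := by
  intro V _ _ _ C q r s hC hq hr hs hint
  have hqC : q ∈ C := hq.1
  have h1 : Sp C q ⊓ Sp C r ≤ Sp C s := by
    rintro v ⟨hv1, hv2⟩
    exact h V C q r s hC hq hr hs hint v hv1 hv2
  have hqr : q + r ∈ C := hC.add q hqC r hr
  have h2 : Sp C q ⊔ Sp C r ≤ Sp C (q + r) :=
    sup_le (sp_mono hC hqr (left_fc hC hqC hr)) (sp_mono hC hqr (right_fc hC hqC hr))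
  have h3 := Submodule.finrank_sup_add_finrank_inf_eq (Sp C q) (Sp C r)
  have h4 := Submodule.finrank_mono h1
  have h5 := Submodule.finrank_mono h2
  unfold rk
  omega

end Pool.Agent.H3.KW
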