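import Pool.Agent.H61.KW.TB

/-!
# Row TFT: transversal feet plus points of the essential face
-/

namespace Pool.Agent.H3.KW

open Pool.Agent.H59 Pool.Agent.H64.LB Pool.Agent.H61.KU Pool.Agent.H61.KV Pool.Agent.H61.KW

theorem pf_TFT : T_TFT := by
  intro V _ _ _ m h q g s hq hg hs hs0
  have hC := h.cc
  have hqC : q ∈ Cn m := h.mem q hq
  have hgC : g ∈ Cn m := hg.mem
  have hsC : s ∈ Cn m := mem_C hs
  have hgs : g + s ∈ Cn m := hC.add g hgC s hsC
  have hovw : ∀ w, g + s ∈ Fc (Cn m) w → Ov (Cn m) q w := by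
    intro w h1 ξ h3 h4 h5
    have h6 : ξ (g + s) = 0 := fun_zero h3 h5 (mem_sp h1)
    have h7 : ξ s = 0 := fun_zero h3 h4 (mem_sp hs)
    have h8 : ξ g = 0 := by
      rw [map_add, h7, add_zero] at h6
      exact h6
    exact hg.ov ξ h3 h4 h8
  have hself : g + s ∈ Fc (Cn m) (g + s) := self hC hgs
  have hw : ∀ w, g + s ∈ Fc (Cn m) w → w ∈ Fc (Cn m) (g + s) → w ∉ Mh m := by
    intro w h1 h2 h3
    have h4 : Tf m q w := h.ovf q w hq h3 (hovw w h1)
    have h5 : s ∈ Fc (Cn m) w := tra hC h4.mem h1 (right_fc hC hgC hsC)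
    exact hs0 (foot_disj hC (h.ftd q hq) h4.mem h4.foot h5 hs)
  have hn : g + s ∉ Mh m := hw _ hself hself
  have hsub : ¬ Fc (Cn m) (g + s) ⊆ Mh m := fun h1 => hn (h1 hself)
  have h4 : 4 ≤ rk (Cn m) (g + s) := by
    by_contra h1
    exact hsub (h.low _ hgs (by omega))
  exact ⟨hn, hsub, h4, fun h5 => h.ef _ hgs h5 hsub, hovw _ hself, hw⟩

end Pool.Agent.H3.KW
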